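import Mathlib
import Pool.Agent.H15.Brouwer

namespace Pool.Agent.Results.MP_aa4be7_al.Counterexample

/-- The Laurent polynomial ring `R[X_1^{±1}, ..., X_m^{±1}]`. -/
abbrev Laur (R : Type) [CommRing R] (m : ℕ) : Type := AddMonoidAlgebra R (Fin m → ℤ)

/-- The Laurent monomial with exponent vector `a`. -/
noncomputable def mono (R : Type) [CommRing R] {m : ℕ} (a : Fin m → ℤ) : Laur R m :=
  AddMonoidAlgebra.single a 1

/-- The degree-`k` component `L_k`: the `R`-span of the monomials of total degree `k`. -/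
noncomputable def Comp (R : Type) [CommRing R] (m : ℕ) (k : ℤ) : Submodule R (Laur R m) :=
  Submodule.span R {f | ∃ a : Fin m → ℤ, ∑ i, a i = k ∧ f = mono R a}

/-- `A` is graded: it is the sum of the pieces `A ∩ L_k`. -/
def IsGraded {R : Type} [CommRing R] {m : ℕ} (A : Subalgebra R (Laur R m)) : Prop :=
  Subalgebra.toSubmodule A = ⨆ k : ℤ, Subalgebra.toSubmodule A ⊓ Comp R m k

/-- Unimodular rows. -/
def Unimod {A : Type} [CommRing A] {n : ℕ} (v : Fin n → A) : Prop :=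
  ∃ b : Fin n → A, ∑ i, v i * b i = 1

/-- The elementary group `E_n(A)`, generated by the matrices `I + c e_ij`, `i ≠ j`. -/
def Elem (n : ℕ) (A : Type) [CommRing A] : Subgroup (GL (Fin n) A) :=
  Subgroup.closure {g | ∃ (i j : Fin n) (c : A), i ≠ j ∧
    (g : Matrix (Fin n) (Fin n) A) = 1 + Matrix.single i j c}

/-- The row `e_1 = (1, 0, ..., 0)`. -/
def e1 (n : ℕ) (A : Type) [CommRing A] : Fin n → A := fun i => if i.val = 0 then 1 else 0

/-- `v` is the first row `e_1 g` of a matrix `g` in `E_n(A)`. -/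
def IsElemRow {A : Type} [CommRing A] {n : ℕ} (v : Fin n → A) : Prop :=
  ∃ g ∈ Elem n A, Matrix.vecMul (e1 n A) (g : Matrix (Fin n) (Fin n) A) = v

/-- Some unimodular row of length `n` over `A` is not the first row of a matrix in `E_n(A)`. -/
def HasBadRow (n : ℕ) (A : Type) [CommRing A] : Prop :=
  ∃ v : Fin n → A, Unimod v ∧ ¬ IsElemRow v

/-- `A` contains all the variables `X_i`. -/
def HasVars {R : Type} [CommRing R] {m : ℕ} (A : Subalgebra R (Laur R m)) : Prop :=
  ∀ i : Fin m, mono R (Pi.single i 1) ∈ A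

abbrev E3 : Type := EuclideanSpace ℝ (Fin 3)

/-- Evaluation at a point of the torus. -/
noncomputable def ev (w : Fin 6 → ℝ) (h : ∀ i, w i ≠ 0) : Laur ℝ 6 →ₐ[ℝ] ℝ :=
  AddMonoidAlgebra.lift ℝ ℝ (Fin 6 → ℤ)
    { toFun := fun a => ∏ i, w i ^ (Multiplicative.toAdd a i)
      map_one' := by simp
      map_mul' := fun a b => by
        rw [← Finset.prod_mul_distrib]
        refine Finset.prod_congr rfl fun i _ => ?_
        rw [toAdd_mul, Pi.add_apply, zpow_add₀ (h i)] }

theorem ev_mono (w : Fin 6 → ℝ) (h : ∀ i, w i ≠ 0) (a : Fin 6 → ℤ) :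
    ev w h (mono ℝ a) = ∏ i, w i ^ a i := by
  unfold ev mono
  rw [AddMonoidAlgebra.lift_single]
  simp

def U : Set E3 := {p | 1 / 2 < ‖p‖ ∧ ∀ i, p i ≠ 0}

noncomputable def pt (p : E3) : Fin 6 → ℝ := ![‖p‖, p 0, p 1, p 2, p 1, p 2]

theorem pt_ne {p : E3} (h : p ∈ U) : ∀ i, pt p i ≠ 0 := by
  intro i
  have h0 : ‖p‖ ≠ 0 := by have := h.1; positivity
  fin_cases i
  · exact h0
  · exact h.2 0
  · exact h.2 1
  · exact h.2 2
  · exact h.2 1
  · exact h.2 2

/-- Laurent polynomials whose evaluation on `U` extends continuously to the whole space. -/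
noncomputable def Good : Subalgebra ℝ (Laur ℝ 6) where
  carrier := {f | ∃ φ : E3 → ℝ, Continuous φ ∧ ∀ p (h : p ∈ U), ev (pt p) (pt_ne h) f = φ p}
  mul_mem' := by
    rintro f g ⟨φ, hφ, h1⟩ ⟨ψ, hψ, h2⟩
    exact ⟨fun p => φ p * ψ p, hφ.mul hψ, fun p h => by rw [map_mul, h1 p h, h2 p h]⟩
  add_mem' := by
    rintro f g ⟨φ, hφ, h1⟩ ⟨ψ, hψ, h2⟩
    exact ⟨fun p => φ p + ψ p, hφ.add hψ, fun p h => by rw [map_add, h1 p h, h2 p h]⟩
  algebraMap_mem' := fun r => ⟨fun _ => r, continuous_const, fun p _ => AlgHom.commutes _ r⟩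

noncomputable def xa : Laur ℝ 6 :=
  mono ℝ ![2, -1, 0, 0, 0, 0] - mono ℝ ![0, -1, 1, 0, 1, 0] - mono ℝ ![0, -1, 0, 1, 0, 1]

def gens : Set (Laur ℝ 6) :=
  {f | (∃ i, f = mono ℝ (Pi.single i 1)) ∨ f = mono ℝ ![-1, 0, 0, 0, 0, 0] ∨ f = xa}

noncomputable def AA : Subalgebra ℝ (Laur ℝ 6) := Algebra.adjoin ℝ gens

theorem mono_mul (a b : Fin 6 → ℤ) : mono ℝ a * mono ℝ b = mono ℝ (a + b) := by
  unfold mono
  rw [AddMonoidAlgebra.single_mul_single, one_mul]

theorem mono_mem (a : Fin 6 → ℤ) (k : ℤ) (h : ∑ i, a i = k) : mono ℝ a ∈ Comp ℝ 6 k :=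
  Submodule.subset_span ⟨a, h, rfl⟩

theorem comp_mul {k l : ℤ} {f g : Laur ℝ 6} (hf : f ∈ Comp ℝ 6 k) (hg : g ∈ Comp ℝ 6 l) :
    f * g ∈ Comp ℝ 6 (k + l) := by
  induction hf using Submodule.span_induction with
  | mem x hx =>
    obtain ⟨a, ha, rfl⟩ := hx
    induction hg using Submodule.span_induction with
    | mem y hy =>
      obtain ⟨b, hb, rfl⟩ := hy
      rw [mono_mul]
      exact mono_mem _ _ (by simp only [Pi.add_apply, Finset.sum_add_distrib, ha, hb])
    | zero => simp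
    | add y z _ _ h1 h2 => rw [mul_add]; exact add_mem h1 h2
    | smul c y _ h1 => rw [mul_smul_comm]; exact Submodule.smul_mem _ _ h1
  | zero => simp
  | add y z _ _ h1 h2 => rw [add_mul]; exact add_mem h1 h2
  | smul c y _ h1 => rw [smul_mul_assoc]; exact Submodule.smul_mem _ _ h1

theorem graded : IsGraded AA := by
  refine le_antisymm ?_ (iSup_le fun k => inf_le_left)
  have hc : ∀ f ∈ Submonoid.closure gens, ∃ k, f ∈ Comp ℝ 6 k := by
    intro f hf
    induction hf using Submonoid.closure_induction with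
    | mem x hx =>
      rcases hx with ⟨i, rfl⟩ | rfl | rfl
      · exact ⟨_, mono_mem _ _ rfl⟩
      · exact ⟨_, mono_mem _ _ rfl⟩
      · refine ⟨1, sub_mem (sub_mem ?_ ?_) ?_⟩ <;> exact mono_mem _ _ (by decide)
    | one => exact ⟨0, mono_mem 0 0 (by simp)⟩
    | mul x y _ _ h1 h2 =>
      obtain ⟨k, hk⟩ := h1
      obtain ⟨l, hl⟩ := h2
      exact ⟨_, comp_mul hk hl⟩
  unfold AA
  conv_lhs => rw [Algebra.adjoin_eq_span]
  refine Submodule.span_le.2 fun f hf => ?_
  obtain ⟨k, hk⟩ := hc f hf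
  refine Submodule.mem_iSup_of_mem k ⟨?_, hk⟩
  exact (Submonoid.closure_le (S := (Algebra.adjoin ℝ gens).toSubmonoid)).2
    Algebra.subset_adjoin hf

theorem ev_x (p : E3) (h : p ∈ U) (i : Fin 6) :
    ev (pt p) (pt_ne h) (mono ℝ (Pi.single i 1)) = pt p i := by
  rw [ev_mono, Finset.prod_eq_single i]
  · simp
  · intro j _ hj
    simp [hj]
  · simp

theorem le_good : AA ≤ Good := by
  refine Algebra.adjoin_le ?_
  rintro f (⟨i, rfl⟩ | rfl | rfl)
  · refine ⟨fun p => pt p i, ?_, fun p h => ev_x p h i⟩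
    fin_cases i <;> simp [pt] <;> fun_prop
  · refine ⟨fun p => (max ‖p‖ (1 / 2))⁻¹, ?_, fun p h => ?_⟩
    · refine Continuous.inv₀ (by fun_prop) fun p => ?_
      have : (1 / 2 : ℝ) ≤ max ‖p‖ (1 / 2) := le_max_right _ _
      positivity
    · show _ = (max ‖p‖ (1 / 2))⁻¹
      rw [ev_mono, max_eq_left h.1.le]
      simp [Fin.prod_univ_six, pt]
  · refine ⟨fun p => p 0, by fun_prop, fun p h => ?_⟩
    have h0 := h.2 0
    have hn : ‖p‖ ^ 2 = p 0 ^ 2 + p 1 ^ 2 + p 2 ^ 2 := by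
      rw [EuclideanSpace.real_norm_sq_eq, Fin.sum_univ_three]
    simp only [xa, map_sub, ev_mono, Fin.prod_univ_six, pt]
    simp
    field_simp
    have : ‖p‖ ^ (2 : ℤ) = ‖p‖ ^ 2 := by norm_cast
    nlinarith [hn, this]

noncomputable def evA (p : E3) (h : p ∈ U) : AA →+* ℝ :=
  ((ev (pt p) (pt_ne h)).comp AA.val).toRingHom

theorem lift_elem (g : GL (Fin 3) AA) (hg : g ∈ Elem 3 AA) :
    ∃ G : E3 → Matrix (Fin 3) (Fin 3) ℝ, Continuous G ∧ (∀ p, (G p).det = 1) ∧
      ∀ p (h : p ∈ U), G p = (evA p h).mapMatrix (g : Matrix (Fin 3) (Fin 3) AA) := by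
  induction hg using Subgroup.closure_induction with
  | mem x hx =>
    obtain ⟨i, j, c, hij, hx⟩ := hx
    obtain ⟨φ, hφ, h1⟩ := le_good c.2
    refine ⟨fun p => Matrix.transvection i j (φ p), ?_,
      fun p => Matrix.det_transvection_of_ne i j hij _, fun p h => ?_⟩
    · refine continuous_matrix fun a b => ?_
      simp only [Matrix.transvection, Matrix.add_apply, Matrix.single_apply]
      split_ifs <;> fun_prop
    · show 1 + Matrix.single i j (φ p) = _
      rw [hx, map_add, map_one]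
      congr 1
      ext a b
      simp only [Matrix.single_apply, RingHom.mapMatrix_apply, Matrix.map_apply]
      split_ifs
      · exact (h1 p h).symm
      · simp
  | one => exact ⟨fun _ => 1, continuous_const, fun p => by simp, fun p h => by simp⟩
  | mul x y _ _ h1 h2 =>
    obtain ⟨G, hG, hd, he⟩ := h1
    obtain ⟨H, hH, hd', he'⟩ := h2
    refine ⟨fun p => G p * H p, hG.matrix_mul hH, fun p => by
      rw [Matrix.det_mul, hd, hd', one_mul], fun p h => ?_⟩
    rw [Units.val_mul, map_mul, ← he p h, ← he' p h]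
  | inv x _ h1 =>
    obtain ⟨G, hG, hd, he⟩ := h1
    refine ⟨fun p => (G p).adjugate, hG.matrix_adjugate, fun p => by
      rw [Matrix.det_adjugate, hd, one_pow], fun p h => ?_⟩
    have h2 : G p * (evA p h).mapMatrix ((x⁻¹ : GL (Fin 3) AA) : Matrix (Fin 3) (Fin 3) AA) = 1 := by
      rw [he p h, ← map_mul, ← Units.val_mul, mul_inv_cancel, Units.val_one, map_one]
    have h3 : (G p).adjugate * G p = 1 := by rw [Matrix.adjugate_mul, hd, one_smul]
    calc (G p).adjugate = (G p).adjugate * (G p * _) := by rw [h2, mul_one]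
      _ = _ := by rw [← mul_assoc, h3, one_mul]

theorem x_mem (i : Fin 6) : mono ℝ (Pi.single i 1) ∈ AA :=
  Algebra.subset_adjoin (Or.inl ⟨i, rfl⟩)

noncomputable def vv : Fin 3 → AA := ![⟨_, x_mem 1⟩, ⟨_, x_mem 2⟩, ⟨_, x_mem 3⟩]

theorem unimod : Unimod vv := by
  have h1 : mono ℝ ![-1, 0, 0, 0, 0, 0] ∈ AA := Algebra.subset_adjoin (Or.inr (Or.inl rfl))
  have h2 : xa ∈ AA := Algebra.subset_adjoin (Or.inr (Or.inr rfl))
  refine ⟨![⟨_, mul_mem h2 (mul_mem h1 h1)⟩, ⟨_, mul_mem (x_mem 4) (mul_mem h1 h1)⟩,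
    ⟨_, mul_mem (x_mem 5) (mul_mem h1 h1)⟩], ?_⟩
  rw [Fin.sum_univ_three]
  apply Subtype.ext
  simp only [vv, xa, Matrix.cons_val_zero, Matrix.cons_val_one, Matrix.cons_val_two,
    Matrix.head_cons, Matrix.tail_cons, Subalgebra.coe_add, Subalgebra.coe_mul, Subalgebra.coe_one,
    sub_mul, mul_sub, mono_mul]
  have e1 : (Pi.single 1 1 : Fin 6 → ℤ) + (![2, -1, 0, 0, 0, 0] + (![-1, 0, 0, 0, 0, 0] +
    ![-1, 0, 0, 0, 0, 0])) = 0 := by decide
  have e2 : (Pi.single 1 1 : Fin 6 → ℤ) + (![0, -1, 1, 0, 1, 0] + (![-1, 0, 0, 0, 0, 0] +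
    ![-1, 0, 0, 0, 0, 0])) = Pi.single 2 1 + (Pi.single 4 1 + (![-1, 0, 0, 0, 0, 0] +
    ![-1, 0, 0, 0, 0, 0])) := by decide
  have e3 : (Pi.single 1 1 : Fin 6 → ℤ) + (![0, -1, 0, 1, 0, 1] + (![-1, 0, 0, 0, 0, 0] +
    ![-1, 0, 0, 0, 0, 0])) = Pi.single 3 1 + (Pi.single 5 1 + (![-1, 0, 0, 0, 0, 0] +
    ![-1, 0, 0, 0, 0, 0])) := by decide
  rw [e1, e2, e3]
  have : mono ℝ (0 : Fin 6 → ℤ) = 1 := rfl
  rw [this]
  abel

theorem not_elem : ¬ ∃ g ∈ Elem 3 AA,
    Matrix.vecMul (e1 3 AA) (g : Matrix (Fin 3) (Fin 3) AA) = vv := by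
  rintro ⟨g, hg, hv⟩
  obtain ⟨G, hG, hd, he⟩ := lift_elem g hg
  let F : E3 → E3 := fun p => WithLp.toLp 2 (fun j => G p 0 j)
  have hF : Continuous F := by
    refine (PiLp.continuous_toLp 2 _).comp (continuous_pi fun j => ?_)
    exact hG.matrix_elem 0 j
  have hrow : ∀ j, (g : Matrix (Fin 3) (Fin 3) AA) 0 j = vv j := by
    intro j
    rw [← hv]
    simp [Matrix.vecMul, dotProduct, e1]
  have hU : ∀ p ∈ U, F p = p := by
    intro p h
    ext j
    show G p 0 j = p j
    rw [he p h, RingHom.mapMatrix_apply, Matrix.map_apply, hrow]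
    fin_cases j
    · exact ev_x p h 1
    · exact ev_x p h 2
    · exact ev_x p h 3
  have hout : ∀ p : E3, 1 ≤ ‖p‖ → F p = p := by
    intro p hp
    let q : ℝ → E3 := fun t => p + t • WithLp.toLp 2 (fun _ => (1 : ℝ))
    have hq : Continuous q := by fun_prop
    have hq0 : Filter.Tendsto q (nhdsWithin 0 (Set.Ioi 0)) (nhds p) := by
      have := hq.tendsto 0
      simp only [q, zero_smul, add_zero] at this
      exact this.mono_left nhdsWithin_le_nhds
    have hev : ∀ᶠ t in nhdsWithin (0 : ℝ) (Set.Ioi 0), q t ∈ U := by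
      refine Filter.Eventually.and ?_ (Filter.eventually_all.2 fun i => ?_)
      · exact hq0.norm.eventually (lt_mem_nhds (by linarith))
      · by_cases h0 : p i = 0
        · filter_upwards [self_mem_nhdsWithin] with t ht
          have : (0 : ℝ) < t := ht
          simp [q, h0, this.ne']
        · have : Filter.Tendsto (fun t => q t i) (nhdsWithin 0 (Set.Ioi 0)) (nhds (p i)) :=
            ((by fun_prop : Continuous fun x : E3 => x i).tendsto p).comp hq0
          exact this.eventually_ne h0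
    have h1 : Filter.Tendsto (fun t => F (q t)) (nhdsWithin 0 (Set.Ioi 0)) (nhds (F p)) :=
      (hF.tendsto p).comp hq0
    exact tendsto_nhds_unique h1 (hq0.congr' (hev.mono fun t ht => (hU _ ht).symm))
  obtain ⟨x, hx⟩ := Pool.Agent.H15.Brouwer.exists_zero F hF hout
  have : (G x).det = 0 := Matrix.det_eq_zero_of_row_eq_zero 0 fun j => by
    have := congrArg (fun y : E3 => y j) hx
    simpa [F] using this
  rw [hd] at this
  exact one_ne_zero this

/-- A Noetherian ring `R` of dimension `d`, a graded subalgebra `A` of a Laurent polynomial ring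
over `R` (containing all the variables), and a unimodular row of length `n ≥ max (d+2) 3` over
`A` that is not the first row of a matrix in `E_n(A)`. -/
theorem result :
    ∃ (R : Type) (_ : CommRing R) (_ : IsNoetherianRing R) (d : ℕ) (_ : ringKrullDim R = d)
      (m : ℕ) (_ : 1 ≤ m) (A : Subalgebra R (Laur R m)),
      IsGraded A ∧ HasVars A ∧ ∃ n : ℕ, max (d + 2) 3 ≤ n ∧ HasBadRow n A :=
  ⟨ℝ, inferInstance, inferInstance, 0, by simp, 6, by norm_num, AA, graded, x_mem, 3, by norm_num,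
    vv, unimod, not_elem⟩

end Pool.Agent.Results.MP_aa4be7_al.Counterexample
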